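import Mathlib

/-!
# Middle coefficients of linear combinations of an ultrafilter are not determined

If `W` is an additive idempotent and `U = W ⊕ 2W`, then `U ⊕ 2U ⊕ 8U` and `U ⊕ 4U ⊕ 8U` are both
equal to `W ⊕ 2W ⊕ 4W ⊕ 8W ⊕ 16W`.
-/

set_option autoImplicit false

namespace Pool.Agent.Results.MP_f00063_lc.MiddleCoefficient

open Filter

/-- The sum of two ultrafilters on the positive integers: `A ∈ sum U V` iff
`{m | {n | m + n ∈ A} ∈ V} ∈ U`. -/
def sum (U V : Ultrafilter ℕ+) : Ultrafilter ℕ+ := U.bind fun m => V.map fun n => m + n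

/-- The ultrafilter `aU`: `A ∈ aU` iff `{n | a * n ∈ A} ∈ U`. -/
def mul (a : ℕ+) (U : Ultrafilter ℕ+) : Ultrafilter ℕ+ := U.map fun n => a * n

theorem mem_sum {U V : Ultrafilter ℕ+} {A : Set ℕ+} :
    A ∈ sum U V ↔ {m | {n | m + n ∈ A} ∈ V} ∈ U := Iff.rfl

theorem mem_mul {a : ℕ+} {U : Ultrafilter ℕ+} {A : Set ℕ+} :
    A ∈ mul a U ↔ {n | a * n ∈ A} ∈ U := Iff.rfl

theorem sum_assoc (U V W : Ultrafilter ℕ+) : sum (sum U V) W = sum U (sum V W) := by
  ext A
  simp only [mem_sum, Set.mem_ofPred_eq, add_assoc]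

theorem mul_sum (a : ℕ+) (U V : Ultrafilter ℕ+) : mul a (sum U V) = sum (mul a U) (mul a V) := by
  ext A
  simp only [mem_sum, mem_mul, Set.mem_ofPred_eq, mul_add]

theorem mul_mul (a b : ℕ+) (U : Ultrafilter ℕ+) : mul a (mul b U) = mul (a * b) U := by
  ext A
  simp only [mem_mul, Set.mem_ofPred_eq, mul_assoc]

section
attribute [local instance] Ultrafilter.add Ultrafilter.addSemigroup

theorem exists_idem : ∃ W : Ultrafilter ℕ+, sum W W = W := by
  obtain ⟨U, hU, -⟩ := Hindman.exists_idempotent_ultrafilter_le_FS (M := ℕ+) (fun _ => 1)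
  refine ⟨U, ?_⟩
  ext A
  have h1 := Ultrafilter.eventually_add U U (· ∈ A)
  rw [hU] at h1
  exact h1.symm

end

/-- There are an ultrafilter `U` and positive integers `a, b, b', c` with `b ≠ b'` and
`aU ⊕ bU ⊕ cU = aU ⊕ b'U ⊕ cU`. -/
theorem result : ∃ (U : Ultrafilter ℕ+) (a b b' c : ℕ+), b ≠ b' ∧
    sum (sum (mul a U) (mul b U)) (mul c U) = sum (sum (mul a U) (mul b' U)) (mul c U) := by
  obtain ⟨W, hW⟩ := exists_idem
  refine ⟨sum W (mul 2 W), 1, 2, 4, 8, by decide, ?_⟩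
  have h : ∀ a : ℕ+, sum (mul a W) (mul a W) = mul a W := fun a => by rw [← mul_sum, hW]
  have h' : ∀ (a : ℕ+) (V : Ultrafilter ℕ+),
      sum (mul a W) (sum (mul a W) V) = sum (mul a W) V := fun a V => by
    rw [← sum_assoc, h]
  simp only [mul_sum, mul_mul, sum_assoc]
  have e1 : (1 : ℕ+) * 2 = 2 := rfl
  have e2 : (2 : ℕ+) * 2 = 4 := rfl
  have e3 : (8 : ℕ+) * 2 = 16 := rfl
  have e4 : (4 : ℕ+) * 2 = 8 := rfl
  rw [e1, e2, e3, e4, h', h']

end Pool.Agent.Results.MP_f00063_lc.MiddleCoefficient
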